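import Pool.Agent.D0H63.Cu.Main

/-!
# Countable unions of countable sets and separability of compact metrizable spaces

There is a countable transitive model of ZF in which the union of every countable family of
countable sets is countable, but some compact metrizable space is not separable. The definitions
are in `Pool.Agent.R596.FcDefs`.
-/

set_option autoImplicit false

namespace Pool.Agent.Results.MP_4abb39_lc.CUCNotSeparable

open Pool.Agent.W868 Pool.Agent.R596Fc

theorem result : ∃ M : Set ZFSet.{0}, M.Countable ∧ IsZF M ∧ CUC M ∧ ¬ MCS M :=
  Pool.Agent.D0H63.Cu.main

end Pool.Agent.Results.MP_4abb39_lc.CUCNotSeparable
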